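import Pool.Agent.H.MP_254873_ag.B

set_option autoImplicit false

namespace Pool.Agent.Results.MP_254873_ag.Value
open Pool.Agent.H.MP_254873_ag

theorem result (n d : ℕ) (hn : 1 ≤ n) (hd : 1 ≤ d) :
    M n d = if n = 1 then 0 else if n = 2 then (d : ℕ∞) else ⊤ := by
  split_ifs with h1 h2
  · subst h1; exact le_antisymm (up1 d) zero_le
  · subst h2; exact le_antisymm (up2 d) (lo2 d)
  · obtain ⟨n, rfl⟩ : ∃ k, n = k + 3 := ⟨n - 3, by omega⟩
    obtain ⟨d, rfl⟩ : ∃ k, d = k + 1 := ⟨d - 1, by omega⟩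
    exact ENat.eq_top_iff_forall_ge.mpr (lo3 n d)

end Pool.Agent.Results.MP_254873_ag.Value
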